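import Mathlib
import Pool.Agent.H23.UC.Stm7

/-!
# Diagonalisation of a quadratic form and the alternating functionals
-/

set_option autoImplicit false

open Set Filter Topology MeasureTheory

namespace Pool.Agent.H66.UC

/-- a functional in coordinates -/
theorem dual_coord {n : ℕ} (f : Module.Dual ℝ (Fin n × Fin n → ℝ)) (g : Fin n × Fin n → ℝ) :
    f g = ∑ p, g p * f (Pi.single p 1) := by
  conv_lhs => rw [pi_eq_sum_univ' g]
  rw [map_sum]
  apply Finset.sum_congr rfl
  intro p _
  rw [map_smul, smul_eq_mul]

theorem stDiag : Pool.Agent.H23.UC.StDiag := by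
  intro n f
  let S : Matrix (Fin n) (Fin n) ℝ := fun a b => (f (Pi.single (a, b) 1) + f (Pi.single (b, a) 1)) / 2
  have hS : S.IsHermitian := by
    apply Matrix.IsHermitian.ext
    intro i j
    simp only [S, star_trivial]
    ring
  have hU : star (hS.eigenvectorUnitary : Matrix (Fin n) (Fin n) ℝ) * (hS.eigenvectorUnitary : Matrix (Fin n) (Fin n) ℝ) = 1 :=
    Unitary.coe_star_mul_self _
  have hsp : S = (hS.eigenvectorUnitary : Matrix (Fin n) (Fin n) ℝ) * Matrix.diagonal hS.eigenvalues
      * star (hS.eigenvectorUnitary : Matrix (Fin n) (Fin n) ℝ) := by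
    have := hS.spectral_theorem
    simpa [Unitary.conjStarAlgAut_apply] using this
  set U : Matrix (Fin n) (Fin n) ℝ := (hS.eigenvectorUnitary : Matrix (Fin n) (Fin n) ℝ) with hUdef
  refine ⟨fun j k => U k j, hS.eigenvalues, ?_, ?_⟩
  · intro t ht
    have h1 : U.mulVec t = 0 := by
      ext k
      have := ht k
      simp only [Matrix.mulVec, dotProduct, Pi.zero_apply]
      rw [← this]
      apply Finset.sum_congr rfl
      intro j _
      ring
    have h2 : (star U * U).mulVec t = 0 := by
      rw [← Matrix.mulVec_mulVec, h1, Matrix.mulVec_zero]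
    rwa [hU, Matrix.one_mulVec] at h2
  · intro y
    have h1 : f (fun p => y p.1 * y p.2) = ∑ a, ∑ b, y a * y b * S a b := by
      rw [dual_coord, Fintype.sum_prod_type]
      have h2 : ∑ a, ∑ b, y a * y b * S a b = (∑ a, ∑ b, y a * y b * f (Pi.single (a, b) 1)) / 2
          + (∑ a, ∑ b, y a * y b * f (Pi.single (b, a) 1)) / 2 := by
        rw [← add_div, ← Finset.sum_add_distrib, Finset.sum_div]
        apply Finset.sum_congr rfl
        intro a _
        rw [← Finset.sum_add_distrib, Finset.sum_div]
        apply Finset.sum_congr rfl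
        intro b _
        simp only [S]
        ring
      have h3 : ∑ a, ∑ b, y a * y b * f (Pi.single (b, a) 1) = ∑ a, ∑ b, y a * y b * f (Pi.single (a, b) 1) := by
        rw [Finset.sum_comm]
        apply Finset.sum_congr rfl
        intro a _
        apply Finset.sum_congr rfl
        intro b _
        ring
      rw [h2, h3]
      ring
    rw [h1]
    have h4 : ∀ a b, S a b = ∑ j, hS.eigenvalues j * (U a j * U b j) := by
      intro a b
      conv_lhs => rw [hsp]
      rw [Matrix.mul_apply]
      apply Finset.sum_congr rfl
      intro j _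
      rw [Matrix.mul_diagonal, Matrix.star_apply, star_trivial]
      ring
    have h5 : ∀ j, (∑ k, U k j * y k) ^ 2 = ∑ a, ∑ b, y a * y b * (U a j * U b j) := by
      intro j
      rw [sq, Finset.sum_mul_sum]
      apply Finset.sum_congr rfl
      intro a _
      apply Finset.sum_congr rfl
      intro b _
      ring
    simp only [h5, h4, Finset.mul_sum]
    have h6 : ∀ a : Fin n, ∑ b, ∑ j, y a * y b * (hS.eigenvalues j * (U a j * U b j))
        = ∑ j, ∑ b, hS.eigenvalues j * (y a * y b * (U a j * U b j)) := by
      intro a
      rw [Finset.sum_comm]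
      apply Finset.sum_congr rfl
      intro j _
      apply Finset.sum_congr rfl
      intro b _
      ring
    simp only [h6]
    rw [Finset.sum_comm]

theorem stAlt : Pool.Agent.H23.UC.StAlt := by
  intro n A hA
  -- the coordinates of an alternating functional
  have hd : ∀ f ∈ A, ∀ a b : Fin n, f (Pi.single (a, b) 1) + f (Pi.single (b, a) 1) = 0 := by
    intro f hf a b
    have h0 := hA f hf (Pi.single a 1 + Pi.single b 1)
    have h1 := hA f hf (Pi.single a 1)
    have h2 := hA f hf (Pi.single b 1)
    have e : ∀ c d : Fin n, (fun p : Fin n × Fin n => (Pi.single c 1 : Fin n → ℝ) p.1 * (Pi.single d 1 : Fin n → ℝ) p.2)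
        = Pi.single (c, d) 1 := by
      intro c d
      ext p
      obtain ⟨p1, p2⟩ := p
      simp only [Pi.single_apply, Prod.mk.injEq]
      by_cases h1 : p1 = c <;> by_cases h2 : p2 = d <;> simp [h1, h2]
    have e3 : (fun p : Fin n × Fin n => (Pi.single a 1 + Pi.single b 1 : Fin n → ℝ) p.1 * (Pi.single a 1 + Pi.single b 1 : Fin n → ℝ) p.2)
        = Pi.single (a, a) 1 + Pi.single (b, b) 1 + (Pi.single (a, b) 1 + Pi.single (b, a) 1) := by
      rw [← e a a, ← e b b, ← e a b, ← e b a]
      ext p
      simp only [Pi.add_apply]
      ring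
    rw [e3, map_add, map_add, map_add] at h0
    rw [e a a] at h1
    rw [e b b] at h2
    linarith
  let T : Type := {p : Fin n × Fin n // p.1 < p.2}
  let R : A →ₗ[ℝ] (T → ℝ) :=
    { toFun := fun f t => (f : Module.Dual ℝ (Fin n × Fin n → ℝ)) (Pi.single t.1 1)
      map_add' := fun f g => by ext t; simp
      map_smul' := fun c f => by ext t; simp }
  have hinj : Function.Injective R := by
    rw [injective_iff_map_eq_zero]
    intro f hf
    have h0 : ∀ p : Fin n × Fin n, (f : Module.Dual ℝ (Fin n × Fin n → ℝ)) (Pi.single p 1) = 0 := by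
      rintro ⟨a, b⟩
      rcases lt_trichotomy a b with h | h | h
      · exact congrFun hf ⟨(a, b), h⟩
      · subst h
        have := hd f f.2 a a
        linarith
      · have h1 := congrFun hf ⟨(b, a), h⟩
        have h2 := hd f f.2 a b
        have h3 : (f : Module.Dual ℝ (Fin n × Fin n → ℝ)) (Pi.single (b, a) 1) = 0 := h1
        rw [h3] at h2
        linarith
    apply Subtype.ext
    apply LinearMap.ext
    intro g
    rw [dual_coord]
    simp [h0]
  have h1 : Module.finrank ℝ A ≤ Fintype.card T := by
    have := LinearMap.finrank_le_finrank_of_injective hinj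
    rwa [Module.finrank_fintype_fun_eq_card] at this
  have h2 : 2 * Fintype.card T + n = n ^ 2 := by
    have e1 : (Finset.univ : Finset (Fin n × Fin n)).card = n ^ 2 := by
      simp [Fintype.card_prod, sq]
    have c1 : Fintype.card T = (Finset.univ.filter fun p : Fin n × Fin n => p.1 < p.2).card := by
      rw [Fintype.card_subtype]
    have c2 : (Finset.univ.filter fun p : Fin n × Fin n => p.2 < p.1).card
        = (Finset.univ.filter fun p : Fin n × Fin n => p.1 < p.2).card := by
      apply Finset.card_bij (fun p _ => (p.2, p.1))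
      · intro p hp
        simpa using hp
      · rintro ⟨a, b⟩ _ ⟨c, d⟩ _ h
        simp only [Prod.mk.injEq] at h ⊢
        exact ⟨h.2, h.1⟩
      · rintro ⟨a, b⟩ hp
        exact ⟨(b, a), by simpa using hp, rfl⟩
    have c3 : (Finset.univ.filter fun p : Fin n × Fin n => p.1 = p.2).card = n := by
      rw [show (Finset.univ.filter fun p : Fin n × Fin n => p.1 = p.2)
        = (Finset.univ : Finset (Fin n)).image (fun a => (a, a)) from ?_]
      · rw [Finset.card_image_of_injective _ (fun a b h => (Prod.mk.inj h).1)]
        simp
      · ext ⟨a, b⟩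
        simp only [Finset.mem_filter, Finset.mem_univ, true_and, Finset.mem_image, Prod.mk.injEq]
        constructor
        · rintro rfl
          exact ⟨a, rfl, rfl⟩
        · rintro ⟨c, rfl, rfl⟩
          rfl
    have e2 := Finset.card_filter_add_card_filter_not (s := (Finset.univ : Finset (Fin n × Fin n))) (fun p => p.1 < p.2)
    have e3 : (Finset.univ.filter fun p : Fin n × Fin n => ¬ p.1 < p.2)
        = (Finset.univ.filter fun p : Fin n × Fin n => p.2 < p.1) ∪ (Finset.univ.filter fun p : Fin n × Fin n => p.1 = p.2) := by
      ext p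
      simp only [Finset.mem_filter, Finset.mem_univ, true_and, Finset.mem_union, not_lt, le_iff_lt_or_eq]
      constructor
      · rintro (h | h)
        · exact Or.inl h
        · exact Or.inr h.symm
      · rintro (h | h)
        · exact Or.inl h
        · exact Or.inr h.symm
    have e4 : ((Finset.univ.filter fun p : Fin n × Fin n => p.2 < p.1) ∪ (Finset.univ.filter fun p : Fin n × Fin n => p.1 = p.2)).card
        = (Finset.univ.filter fun p : Fin n × Fin n => p.2 < p.1).card + (Finset.univ.filter fun p : Fin n × Fin n => p.1 = p.2).card := by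
      apply Finset.card_union_of_disjoint
      rw [Finset.disjoint_filter]
      intro p _ h1 h2
      rw [h2] at h1
      exact lt_irrefl _ h1
    rw [e3, e4, c2, c3, e1] at e2
    rw [c1]
    omega
  nlinarith

end Pool.Agent.H66.UC
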