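import Mathlib
import Pool.Agent.H23.UC.Stm6

/-!
# Hopf's lemma: the products of the functions of a finite-dimensional space
-/

set_option autoImplicit false

open Set Filter Topology Pointwise

namespace Pool.Agent.H66.UC

variable {X : Type} [TopologicalSpace X]

omit [TopologicalSpace X] in
/-- an element of the space is bounded by the generators -/
theorem bd_one {ι : Type} [Fintype ι] (g : ι → X → ℝ) {a : X → ℝ} (ha : a ∈ Submodule.span ℝ (range g)) :
    ∃ C : ℝ, 0 ≤ C ∧ ∀ x, |a x| ≤ C * ∑ i, |g i x| := by
  obtain ⟨c, hc⟩ := (Submodule.mem_span_range_iff_exists_fun ℝ).1 ha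
  refine ⟨∑ i, |c i|, Finset.sum_nonneg fun i _ => abs_nonneg _, fun x => ?_⟩
  rw [← hc]
  simp only [Finset.sum_apply, Pi.smul_apply, smul_eq_mul]
  calc |∑ i, c i * g i x| ≤ ∑ i, |c i * g i x| := Finset.abs_sum_le_sum_abs _ _
    _ = ∑ i, |c i| * |g i x| := by simp only [abs_mul]
    _ ≤ ∑ i, |c i| * ∑ j, |g j x| := by
        apply Finset.sum_le_sum
        intro i _
        apply mul_le_mul_of_nonneg_left _ (abs_nonneg _)
        exact Finset.single_le_sum (f := fun j => |g j x|) (fun j _ => abs_nonneg _) (Finset.mem_univ i)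
    _ = (∑ i, |c i|) * ∑ i, |g i x| := by rw [Finset.sum_mul]

omit [TopologicalSpace X] in
/-- a product is bounded by the square -/
theorem bd_two {ι : Type} [Fintype ι] (g : ι → X → ℝ) {h : X → ℝ}
    (hh : h ∈ Submodule.span ℝ (range g) * Submodule.span ℝ (range g)) :
    ∃ C : ℝ, 0 ≤ C ∧ ∀ x, |h x| ≤ C * (∑ i, |g i x|) ^ 2 := by
  refine Submodule.mul_induction_on hh ?_ ?_
  · intro a ha b hb
    obtain ⟨C1, h1, k1⟩ := bd_one g ha
    obtain ⟨C2, h2, k2⟩ := bd_one g hb
    refine ⟨C1 * C2, mul_nonneg h1 h2, fun x => ?_⟩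
    rw [Pi.mul_apply, abs_mul]
    calc |a x| * |b x| ≤ (C1 * ∑ i, |g i x|) * (C2 * ∑ i, |g i x|) :=
          mul_le_mul (k1 x) (k2 x) (abs_nonneg _) ((abs_nonneg _).trans (k1 x))
      _ = _ := by ring
  · rintro a b ⟨C1, h1, k1⟩ ⟨C2, h2, k2⟩
    refine ⟨C1 + C2, add_nonneg h1 h2, fun x => ?_⟩
    rw [Pi.add_apply, add_mul]
    exact (abs_add_le _ _).trans (add_le_add (k1 x) (k2 x))

/-- Hopf's lemma -/
theorem hopf (n : ℕ) : ∀ (V : Submodule ℝ (X → ℝ)), FiniteDimensional ℝ V → n + 1 ≤ Module.finrank ℝ V →
    (∀ f ∈ V, Continuous f) → (∀ f ∈ V, f ≠ 0 → ∀ O : Set X, IsOpen O → O.Nonempty → ∃ x ∈ O, f x ≠ 0) →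
    2 * n + 1 ≤ Module.finrank ℝ ↥(V * V) := by
  induction n with
  | zero =>
    intro V hfd hn hc hO
    have hVV : FiniteDimensional ℝ ↥(V * V) := by
      rw [← Submodule.fg_iff_finiteDimensional] at hfd ⊢
      exact hfd.mul hfd
    have hne : V ≠ ⊥ := by
      rintro rfl
      simp at hn
    obtain ⟨f, hf, hf0⟩ := Submodule.exists_mem_ne_zero_of_ne_bot hne
    have h1 : f * f ∈ V * V := Submodule.mul_mem_mul hf hf
    have h2 : f * f ≠ 0 := by
      intro h
      apply hf0
      funext x
      have := congrFun h x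
      simpa using this
    have h3 : V * V ≠ ⊥ := by
      intro h
      rw [h, Submodule.mem_bot] at h1
      exact h2 h1
    have := Submodule.one_le_finrank_iff.2 h3
    omega
  | succ n ih =>
    intro V hfd hn hc hO
    have hVV : FiniteDimensional ℝ ↥(V * V) := by
      rw [← Submodule.fg_iff_finiteDimensional] at hfd ⊢
      exact hfd.mul hfd
    have hne : V ≠ ⊥ := by
      rintro rfl
      simp at hn
    obtain ⟨f, hf, hf0⟩ := Submodule.exists_mem_ne_zero_of_ne_bot hne
    obtain ⟨p, hp⟩ : ∃ p, f p ≠ 0 := by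
      by_contra hcon
      push Not at hcon
      exact hf0 (funext hcon)
    set W : Submodule ℝ (X → ℝ) := V ⊓ LinearMap.ker (LinearMap.proj (R := ℝ) (φ := fun _ : X => ℝ) p) with hW
    have hWV : W ≤ V := inf_le_left
    have hWp : ∀ g ∈ W, g p = 0 := by
      intro g hg
      exact hg.2
    have hWfd : FiniteDimensional ℝ W := Submodule.finiteDimensional_of_le hWV
    have hle : V ≤ W ⊔ Submodule.span ℝ {f} := by
      intro g hg
      rw [Submodule.mem_sup]
      refine ⟨g - (g p / f p) • f, ⟨V.sub_mem hg (V.smul_mem _ hf), ?_⟩, (g p / f p) • f,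
        Submodule.smul_mem _ _ (Submodule.mem_span_singleton_self f), by simp⟩
      rw [SetLike.mem_coe, LinearMap.mem_ker, LinearMap.proj_apply]
      simp only [Pi.sub_apply, Pi.smul_apply, smul_eq_mul]
      field_simp
      ring
    have hWn : n + 1 ≤ Module.finrank ℝ W := by
      have h1 := Submodule.finrank_mono hle
      have h2 := Submodule.finrank_add_le_finrank_add_finrank W (Submodule.span ℝ {f})
      have h3 : Module.finrank ℝ (Submodule.span ℝ {f}) ≤ 1 := by
        rw [finrank_span_singleton hf0]
      omega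
    have hIH := ih W hWfd hWn (fun g hg => hc g (hWV hg)) (fun g hg => hO g (hWV hg))
    -- a product outside
    obtain ⟨g, hg, hfg⟩ : ∃ g ∈ W, f * g ∉ W * W := by
      by_contra hcon
      push Not at hcon
      set b := Module.finBasis ℝ W with hb
      set gg : Fin (Module.finrank ℝ W) → X → ℝ := fun i => (b i : X → ℝ) with hgg
      have hspan : Submodule.span ℝ (range gg) = W := by
        have h1 := b.span_eq
        have h2 : range gg = W.subtype '' (range b) := by
          rw [← range_comp]
          rfl
        rw [h2, Submodule.span_image, h1, Submodule.map_top, Submodule.range_subtype]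
      have hmem : ∀ i, gg i ∈ W := fun i => (b i).2
      choose C hC0 hC using fun i => bd_two gg (h := f * gg i) (by
        rw [hspan]
        exact hcon _ (hmem i))
      set G : X → ℝ := fun x => ∑ i, |gg i x| with hG
      have hG0 : ∀ x, 0 ≤ G x := fun x => Finset.sum_nonneg fun i _ => abs_nonneg _
      have hGc : Continuous G := by
        apply continuous_finsetSum
        intro i _
        exact (hc _ (hWV (hmem i))).abs
      have hGp : G p = 0 := by
        rw [hG]
        apply Finset.sum_eq_zero
        intro i _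
        rw [hWp _ (hmem i), abs_zero]
      have hfc := hc f hf
      have hkey : ∀ x, |f x| * G x ≤ (∑ i, C i) * G x ^ 2 := by
        intro x
        rw [hG]
        simp only
        rw [Finset.mul_sum, Finset.sum_mul]
        apply Finset.sum_le_sum
        intro i _
        have := hC i x
        rwa [Pi.mul_apply, abs_mul] at this
      set O : Set X := {x | (∑ i, C i) * G x < |f x|} with hOdef
      have hOo : IsOpen O := isOpen_lt (continuous_const.mul hGc) hfc.abs
      have hpO : p ∈ O := by
        rw [hOdef, mem_ofPred_eq, hGp, mul_zero]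
        exact abs_pos.2 hp
      have hGO : ∀ x ∈ O, G x = 0 := by
        intro x hx
        by_contra hne0
        have hpos : 0 < G x := lt_of_le_of_ne (hG0 x) (Ne.symm hne0)
        have h1 := hkey x
        have h2 : (∑ i, C i) * G x < |f x| := hx
        nlinarith
      have h0 : 0 < Module.finrank ℝ W := by omega
      set i0 : Fin (Module.finrank ℝ W) := ⟨0, h0⟩ with hi0
      have hb0 : gg i0 ≠ 0 := by
        intro h
        have := b.ne_zero i0
        apply this
        exact Subtype.ext h
      obtain ⟨x, hx, hx0⟩ := hO _ (hWV (hmem i0)) hb0 O hOo ⟨p, hpO⟩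
      have h1 : |gg i0 x| ≤ G x := Finset.single_le_sum (f := fun j => |gg j x|) (fun j _ => abs_nonneg _)
        (Finset.mem_univ i0)
      rw [hGO x hx] at h1
      exact hx0 (abs_eq_zero.1 (le_antisymm h1 (abs_nonneg _)))
    set U : Submodule ℝ (X → ℝ) := W * W ⊔ Submodule.span ℝ {f * g} with hU
    have hfgV : f * g ∈ V * V := Submodule.mul_mem_mul hf (hWV hg)
    have hUV : U ≤ V * V := by
      rw [hU, sup_le_iff]
      refine ⟨mul_le_mul' hWV hWV, ?_⟩
      rw [Submodule.span_singleton_le_iff_mem]
      exact hfgV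
    have hUfd : FiniteDimensional ℝ U := Submodule.finiteDimensional_of_le hUV
    have hlt1 : W * W < U := by
      refine lt_of_le_of_ne le_sup_left ?_
      intro h
      apply hfg
      rw [h]
      exact le_sup_right (a := W * W) (Submodule.mem_span_singleton_self (f * g))
    have hUp : ∀ h ∈ U, h p = 0 := by
      have h1 : U ≤ LinearMap.ker (LinearMap.proj (R := ℝ) (φ := fun _ : X => ℝ) p) := by
        rw [hU, sup_le_iff]
        constructor
        · rw [Submodule.mul_le]
          intro a ha b hb
          rw [LinearMap.mem_ker, LinearMap.proj_apply, Pi.mul_apply, hWp a ha, zero_mul]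
        · rw [Submodule.span_singleton_le_iff_mem, LinearMap.mem_ker, LinearMap.proj_apply, Pi.mul_apply,
            hWp g hg, mul_zero]
      intro h hh
      exact h1 hh
    have hlt2 : U < V * V := by
      refine lt_of_le_of_ne hUV ?_
      intro h
      have h1 : f * f ∈ U := by
        rw [h]
        exact Submodule.mul_mem_mul hf hf
      have h2 := hUp _ h1
      rw [Pi.mul_apply] at h2
      exact hp (by simpa using h2)
    have e1 := Submodule.finrank_lt_finrank_of_lt hlt1
    have e2 := Submodule.finrank_lt_finrank_of_lt hlt2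
    omega

theorem stHopf : Pool.Agent.H23.UC.StHopf := by
  intro X _ _ n v hc hO
  have hlin : LinearIndependent ℝ v := by
    rw [Fintype.linearIndependent_iff]
    intro t ht
    by_contra hne
    have hne' : t ≠ 0 := by
      intro h
      apply hne
      intro i
      rw [h]
      rfl
    obtain ⟨x, -, hx⟩ := hO t hne' univ isOpen_univ univ_nonempty
    apply hx
    have := congrFun ht x
    simpa using this
  have hfd : FiniteDimensional ℝ (Submodule.span ℝ (range v)) := FiniteDimensional.span_of_finite ℝ (finite_range v)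
  have h := hopf n (Submodule.span ℝ (range v)) hfd (by
    rw [finrank_span_eq_card hlin, Fintype.card_fin]) ?_ ?_
  · rw [Submodule.span_mul_span] at h
    have e : range v * range v = range fun p : Fin (n + 1) × Fin (n + 1) => fun x => v p.1 x * v p.2 x := by
      ext f
      constructor
      · rintro ⟨a, ⟨i, rfl⟩, b, ⟨j, rfl⟩, rfl⟩
        exact ⟨(i, j), rfl⟩
      · rintro ⟨⟨i, j⟩, rfl⟩
        exact ⟨v i, ⟨i, rfl⟩, v j, ⟨j, rfl⟩, rfl⟩
    rwa [e] at h
  · intro f hf
    obtain ⟨t, ht⟩ := (Submodule.mem_span_range_iff_exists_fun ℝ).1 hf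
    rw [← ht]
    have : (∑ i, t i • v i) = fun x => ∑ i, t i * v i x := by
      funext x
      simp
    rw [this]
    exact continuous_finsetSum _ fun i _ => continuous_const.mul (hc i)
  · intro f hf hf0 O hOo hOn
    obtain ⟨t, ht⟩ := (Submodule.mem_span_range_iff_exists_fun ℝ).1 hf
    have ht0 : t ≠ 0 := by
      rintro rfl
      apply hf0
      rw [← ht]
      simp
    obtain ⟨x, hx, hx0⟩ := hO t ht0 O hOo hOn
    refine ⟨x, hx, ?_⟩
    rw [← ht]
    simpa using hx0

end Pool.Agent.H66.UC
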